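import Pool.Agent.P.MP_9167e9_an.StG

/-! The recursive construction of the family and the final assembly. -/

noncomputable section
open scoped Classical ENNReal

namespace Pool.Agent.P.MP_9167e9_an

namespace Final

variable {P : Prm}

theorem adm_mono {F F' : Set (Cell P)} (h : Adm F') (hs : F ⊆ F') : Adm F :=
  ⟨h.j_big, h.prime, fun c hc => h.ok c (hs hc),
    fun c hc c' hc' => h.inj c (hs hc) c' (hs hc'),
    fun c hc c' hc' => h.gap c (hs hc) c' (hs hc'),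
    fun c hc c' hc' => h.pc1 c (hs hc) c' (hs hc')⟩

/-- A sequence of cells chosen one after the other. -/
theorem chain (h0 : Adm (∅ : Set (Cell P))) (Q : ℕ → Set (Cell P) → Cell P → Prop)
    (step : ∀ n F, Adm F → F.Finite →
      ∃ c, Adm (insert c F) ∧ (∀ e ∈ F, e.R < c.R) ∧ Q n F c) :
    ∃ c : ℕ → Cell P, Adm (Set.range c) ∧ ∀ n, ∃ F, Q n F (c n) ∧
      ∀ e, e.R < (c n).R → (e ∈ Set.range c ↔ e ∈ F) := by
  choose f hf1 hf2 hf3 using step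
  let seq : ℕ → {F : Set (Cell P) // Adm F ∧ F.Finite} := fun n =>
    Nat.rec ⟨∅, h0, Set.finite_empty⟩
      (fun n F => ⟨insert (f n F.1 F.2.1 F.2.2) F.1, hf1 n F.1 F.2.1 F.2.2, F.2.2.insert _⟩) n
  let c : ℕ → Cell P := fun n => f n (seq n).1 (seq n).2.1 (seq n).2.2
  have hs : ∀ n, (seq (n + 1)).1 = insert (c n) (seq n).1 := fun n => rfl
  have hmem : ∀ n e, e ∈ (seq n).1 ↔ ∃ m < n, c m = e := by
    intro n
    induction n with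
    | zero => intro e; simp [seq]
    | succ n ih =>
      intro e
      rw [hs, Set.mem_insert_iff, ih]
      constructor
      · rintro (rfl | ⟨m, hm, rfl⟩)
        · exact ⟨n, Nat.lt_succ_self n, rfl⟩
        · exact ⟨m, hm.trans (Nat.lt_succ_self n), rfl⟩
      · rintro ⟨m, hm, rfl⟩
        rcases Nat.lt_succ_iff_lt_or_eq.1 hm with h | rfl
        · exact Or.inr ⟨m, h, rfl⟩
        · exact Or.inl rfl
  have hlt : ∀ m n, m < n → (c m).R < (c n).R := fun m n h =>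
    hf2 n _ _ _ _ ((hmem n _).2 ⟨m, h, rfl⟩)
  have two : ∀ m n, c m ∈ (seq (max m n + 1)).1 ∧ c n ∈ (seq (max m n + 1)).1 := fun m n =>
    ⟨(hmem (max m n + 1) _).2 ⟨m, by omega, rfl⟩, (hmem (max m n + 1) _).2 ⟨n, by omega, rfl⟩⟩
  refine ⟨c, ⟨h0.j_big, h0.prime, ?_, ?_, ?_, ?_⟩, fun n => ⟨(seq n).1, hf3 n _ _ _, ?_⟩⟩
  · rintro _ ⟨m, rfl⟩
    exact (seq (max m m + 1)).2.1.ok _ (two m m).1
  · rintro _ ⟨m, rfl⟩ _ ⟨n, rfl⟩
    exact (seq (max m n + 1)).2.1.inj _ (two m n).1 _ (two m n).2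
  · rintro _ ⟨m, rfl⟩ _ ⟨n, rfl⟩
    exact (seq (max m n + 1)).2.1.gap _ (two m n).1 _ (two m n).2
  · rintro _ ⟨m, rfl⟩ _ ⟨n, rfl⟩
    exact (seq (max m n + 1)).2.1.pc1 _ (two m n).1 _ (two m n).2
  · intro e he
    rw [hmem]
    constructor
    · rintro ⟨m, rfl⟩
      refine ⟨m, ?_, rfl⟩
      by_contra hm
      rcases (not_lt.1 hm).eq_or_lt with rfl | h
      · exact lt_irrefl _ he
      · exact lt_asymm he (hlt _ _ h)
    · rintro ⟨m, -, rfl⟩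
      exact ⟨m, rfl⟩

theorem card_le (j : ℕ) (hj : 1000 ≤ j) (x y z : ℕ) (hx : x + y + z + 2 ≤ 10 ^ 6) :
    (j * ((2 * j) ^ x * (2 * (2 * j) ^ y) * (2 * j) ^ z)) ^ 2 ≤ j ^ (10 ^ 7) := by
  have h1 : 2 * j ≤ j ^ 2 := by nlinarith
  have h2 : j * ((2 * j) ^ x * (2 * (2 * j) ^ y) * (2 * j) ^ z) = (2 * j) ^ (x + y + z + 1) := by
    ring
  have h3 : (2 * j) ^ (x + y + z + 1) ≤ j ^ (2 * (x + y + z + 1)) := by
    rw [pow_mul]
    exact Nat.pow_le_pow_left h1 _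
  rw [h2]
  calc ((2 * j) ^ (x + y + z + 1)) ^ 2 ≤ (j ^ (2 * (x + y + z + 1))) ^ 2 :=
        Nat.pow_le_pow_left h3 _
    _ = j ^ (2 * (x + y + z + 1) * 2) := by rw [← pow_mul]
    _ ≤ j ^ (10 ^ 7) := Nat.pow_le_pow_right (by omega) (by omega)

theorem con (p : ℝ≥0∞) [Fact (1 ≤ p)] (j h D T B : ℕ) [NeZero D] (hNew : StNew) (hLink : StLink)
    (hGrp : StGrp) (hj : 1000 ≤ j) (hh : h.Prime) (hh' : 1024 ≤ h) (hD : (2 * j) ^ 36 ≤ D)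
    (P : Prm) (hP : P = cprm j h ((2 * j) ^ 250000) ((2 * j) ^ 50000) D)
    (hS : ∀ n : ℕ, ∃ R0, ∀ (F : Set (Cell P)) (G : Type) [Group G]
      (ρ : FreeGroup (P.S ⊕ P.S) →* G) (e : G ≃ Gam F × NN F) (Φ : Gam F → NN F →* NN F),
      Adm F → GrpOut F G ρ e Φ → (∀ c ∈ F, B ≤ c.R) → ∀ c ∈ F, R0 ≤ c.R → ∀ Y,
      (∀ y ∈ Y, ∀ f ∈ y.coeff.support, nr f ≤ c.R) → Hid F c Y →
      Nonempty (Stage p ρ (xF P.S P.h P.j T) c.R Y (Real.exp (c.R / (n + 1) ^ 2)))) :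
    Con (P.S ⊕ P.S) p (xF P.S P.h P.j T) := by
  subst hP
  intro Y hY1 hY2
  choose R1 hR1 using hS
  obtain ⟨c, hc, hQ⟩ := chain (P := cprm j h ((2 * j) ^ 250000) ((2 * j) ^ 50000) D)
    ⟨hj, hh, by simp, by simp, by simp, by simp⟩
    (fun n F c => (R1 n ≤ c.R ∧ B ≤ c.R ∧ 4 * (n + 1) ≤ c.R) ∧ ∀ F', Adm F' → c ∈ F' →
      (∀ e, e.R < c.R → (e ∈ F' ↔ e ∈ F)) → Hid F' c (Y n c.R))
    (by
      intro n F hF hfin
      obtain ⟨R0, hR0⟩ := hNew j h D F hF hfin hh'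
      obtain ⟨K, hK, hok, hlt, hadm⟩ := hR0 (R0 + R1 n + B + 4 * (n + 1)) (by omega)
      obtain ⟨t, ht⟩ := hLink j h _ _ D K F (Y n K.R) hD hok (by rw [hK]; exact hlt) hadm
        ((hY1 n _).trans (by omega)) (hY2 n _)
      have hR : (K.cell t).R = K.R := rfl
      refine ⟨K.cell t, hadm t, by rw [hR, hK]; exact hlt, ?_, ht⟩
      rw [hR, hK]
      omega)
  obtain ⟨G, inst, ρ, e, Φ, hG⟩ := hGrp _ _ hc
  refine ⟨G, inst, ρ, fun n => (c n).R, hG.surj, fun n => ?_⟩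
  obtain ⟨F, ⟨⟨h1, -, h3⟩, h4⟩, h5⟩ := hQ n
  refine ⟨h3, hR1 n _ G ρ e Φ hc hG ?_ (c n) ⟨n, rfl⟩ h1 _ (hY2 n _) (h4 _ hc ⟨n, rfl⟩ h5)⟩
  rintro _ ⟨m, rfl⟩
  obtain ⟨_, ⟨⟨-, h, -⟩, -⟩, -⟩ := hQ m
  exact h

theorem fin_aux (hDet : StDet) (hStage : StStage) (hNew : StNew) (hLink : StLink) (hGrp : StGrp)
    (q : ℕ) (hq : q = 10 ^ 7) : Main := by
  have hq2 : 2 ≤ q := by omega
  have h2 : (2 : ℝ≥0∞) ≤ (q : ℝ≥0∞) := by exact_mod_cast hq2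
  have : Fact (1 ≤ (q : ℝ≥0∞)) := ⟨le_trans (by norm_num) h2⟩
  have hne : (q : ℝ≥0∞) ≠ ∞ := ENNReal.natCast_ne_top q
  obtain ⟨T, B, j0, hS⟩ := hStage (q : ℝ≥0∞) h2 hne
  obtain ⟨j, hj0, hj⟩ : ∃ j, j0 ≤ j ∧ 1000 ≤ j := ⟨max j0 1000, le_max_left _ _, le_max_right _ _⟩
  obtain ⟨D, hD⟩ : ∃ D, D = (2 * j) ^ 36 := ⟨_, rfl⟩
  have : NeZero D := ⟨by rw [hD]; positivity⟩
  obtain ⟨k, hk⟩ : ∃ k, k = j * ((2 * j) ^ 250000 * (2 * (2 * j) ^ 50000) * D) := ⟨_, rfl⟩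
  obtain ⟨h, hh1, hh⟩ := Nat.exists_infinite_primes (max 1024 (k ^ q))
  obtain ⟨P, hP⟩ : ∃ P : Prm, P = cprm j h ((2 * j) ^ 250000) ((2 * j) ^ 50000) D := ⟨_, rfl⟩
  have hc : Fintype.card P.S = k := by
    subst hP
    rw [hk]
    simp only [Fintype.card_prod, Fintype.card_fin, ZMod.card]
  have hPj : P.j = j := by rw [hP]
  have hPh : P.h = h := by rw [hP]
  refine hDet (P.S ⊕ P.S) q (xF P.S P.h P.j T) h2 hne
    (con q j h D T B hNew hLink hGrp hj hh (le_trans (le_max_left _ _) hh1) hD.ge P hP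
      (hS P (by omega) ?_ ?_))
  · rw [hc, hPj, ENNReal.toReal_natCast, Real.rpow_natCast, hk, hD, hq]
    exact_mod_cast card_le j hj 250000 50000 36 (by norm_num)
  · rw [hc, hPh, ENNReal.toReal_natCast, Real.rpow_natCast]
    exact_mod_cast le_trans (le_max_right _ _) hh1

end Final

theorem pFinal (hDet : StDet) (hStage : StStage) (hNew : StNew) (hLink : StLink) (hGrp : StGrp) :
    Main :=
  Final.fin_aux hDet hStage hNew hLink hGrp _ rfl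

end Pool.Agent.P.MP_9167e9_an
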