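import Pool.Agent.P.MP_9167e9_an.Fin.Final
import Pool.Agent.P.MP_9167e9_an.Tree.Main
import Pool.Agent.P.MP_9167e9_an.Gp.Main
import Pool.Agent.P.MP_9167e9_an.Ht.Main
import Pool.Agent.P.MP_9167e9_an.Link.Main
import Pool.Agent.P.MP_9167e9_an.Ws.Main
import Pool.Agent.P.MP_9167e9_an.Bas.Main
import Pool.Agent.P.MP_9167e9_an.Locn.Main
import Pool.Agent.P.MP_9167e9_an.Tw.Main
import Pool.Agent.P.MP_9167e9_an.New.Main
import Pool.Agent.P.MP_9167e9_an.NearG.Main
import Pool.Agent.P.MP_9167e9_an.De.Main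
import Pool.Agent.P.MP_9167e9_an.Num.Main
import Pool.Agent.P.MP_9167e9_an.Gam2.Main
import Pool.Agent.P.MP_9167e9_an.Pw.Main
import Pool.Agent.P.MP_9167e9_an.Gam1.Main
import Pool.Agent.P.MP_9167e9_an.Near.Main
import Pool.Agent.P.MP_9167e9_an.Blk.Main
import Pool.Agent.P.MP_9167e9_an.Lab.Main
import Pool.Agent.P.MP_9167e9_an.Core.Main
import Pool.Agent.P.MP_9167e9_an.Far.Main
import Pool.Agent.P.MP_9167e9_an.Stage.Main
import Pool.Agent.P.MP_9167e9_an.Loc.G
import Pool.Agent.P.MP_9167e9_an.Loc.LocZ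
import Pool.Agent.P.MP_9167e9_an.Prob.Main
import Pool.Agent.P.MP_9167e9_an.Anch.Main
import Pool.Agent.P.MP_9167e9_an.Addr.Main
import Pool.Agent.P.MP_9167e9_an.Spec.Asm
import Pool.Agent.P.MP_9167e9_an.Spec.BMain
import Pool.Agent.P.MP_9167e9_an.Br.Main
import Pool.Agent.P.MP_9167e9_an.Nf.Main
import Pool.Agent.P.MP_9167e9_an.Grp.Main
import Pool.Agent.P.MP_9167e9_an.Twist.Main

namespace Pool.Agent.P.MP_9167e9_an

theorem part (hDet : StDet) : Main := by
  have bas := pBas pTree pPre pHt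
  have tw := pTW pTree pPre pWS bas
  have g1 := pGam1 tw bas pNum pBall
  have g2 := pGam2 tw bas pNum g1
  have de := pDe tw bas pNum g1
  have pw := pPW pGP pPre pWS pNum g1
  have nf := pNF pw g1 pNum
  have br := pBr g1 g2 pNum
  have ng := pNearG pTree pPre bas g1 nf pBall
  have ln := pLocn pw br g1 g2 pNum ng
  have an := pAnch pw br g1 g2 pNum bas
  have lg := pLocG g1 bas pNum
  have lz := pLocZ lg pw br g1 bas pNum nf
  have lk := pLink pProb pAddr lg lz g1 bas ng pBall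
  have bl := pBlk (Spec.spec_of_blk Spec.pBlk) de pw nf g1 bas pNum
  have st := pStage bl (pTwist pFar pNear an ng ln bas) ln nf g1 bas
  exact pFinal hDet st (pNew pCore pLabSelf pLabCross pCode pCell) lk (pGrp pw g1 nf)

end Pool.Agent.P.MP_9167e9_an
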